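import Mathlib
import Pool.Agent.H35.BW.Final

set_option autoImplicit false

/-!
Ramsey numbers of graphs with bounded degree and small bandwidth: for every `Δ` there are `n₀` and
`β > 0` such that `R(H,H) ≤ (χ(H) + 8) n` for every graph `H` with `n ≥ n₀` vertices, maximum degree
at most `Δ` and bandwidth at most `β n`.
-/

namespace Pool.Agent.Results.MP_f1903f_co.AbsoluteConstant

/-- The vertices of `H` can be numbered by `0, …, n - 1` (where `n` is the number of vertices) so
that the numbers of adjacent vertices differ by at most `b`. -/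
def HasBandwidth {V : Type} [Fintype V] (H : SimpleGraph V) (b : ℕ) : Prop :=
  ∃ f : V ≃ Fin (Fintype.card V), ∀ u v, H.Adj u v → |((f u : ℕ) : ℤ) - ((f v : ℕ) : ℤ)| ≤ b

/-- The bandwidth of a finite graph. -/
noncomputable def bandwidth {V : Type} [Fintype V] (H : SimpleGraph V) : ℕ :=
  sInf {b : ℕ | HasBandwidth H b}

/-- The Ramsey number `R(H,H)`: the least `N` such that for every graph `G` on `N` vertices (the
edges of the first colour), `G` or its complement (the edges of the second colour) contains a copy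
of `H`, not necessarily induced. -/
noncomputable def ramsey {V : Type} (H : SimpleGraph V) : ℕ :=
  sInf {N : ℕ | ∀ G : SimpleGraph (Fin N), H.IsContained G ∨ H.IsContained Gᶜ}

open Finset Classical in
/-- **`R(H,H) ≤ (χ(H) + 8) n` for graphs of bounded maximum degree and small bandwidth.** -/
theorem result : ∀ Δ : ℕ, ∃ n₀ : ℕ, ∃ β : ℝ, 0 < β ∧
    ∀ (V : Type) [Fintype V] (H : SimpleGraph V), n₀ ≤ Fintype.card V →
      (∀ v : V, (H.neighborSet v).ncard ≤ Δ) →
      (bandwidth H : ℝ) ≤ β * Fintype.card V →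
      (ramsey H : ℕ∞) ≤ (H.chromaticNumber + 8) * (Fintype.card V : ℕ∞) := by
  intro Δ
  obtain ⟨n₀, β, hβ, hmain⟩ := Pool.Agent.H35.BW.main Δ
  refine ⟨n₀, β, hβ, ?_⟩
  intro V _ H hn hdeg hbw
  -- the numbering
  have hne : {b : ℕ | HasBandwidth H b}.Nonempty := by
    refine ⟨Fintype.card V, Fintype.equivFin V, ?_⟩
    intro u v _
    have h1 := (Fintype.equivFin V u).isLt
    have h2 := (Fintype.equivFin V v).isLt
    rw [abs_le]
    constructor <;> omega
  obtain ⟨f, hf⟩ : HasBandwidth H (bandwidth H) := Nat.sInf_mem hne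
  obtain ⟨H', hH'⟩ : ∃ H' : SimpleGraph (Fin (Fintype.card V)), H' = H.comap f.symm := ⟨_, rfl⟩
  have hadj : ∀ x y, H'.Adj x y ↔ H.Adj (f.symm x) (f.symm y) := by
    intro x y
    rw [hH', SimpleGraph.comap_adj]
  have hbw' : ∀ x y, H'.Adj x y → y.val ≤ x.val + bandwidth H := by
    intro x y hxy
    have h1 := hf _ _ ((hadj x y).1 hxy)
    rw [Equiv.apply_symm_apply, Equiv.apply_symm_apply, abs_le] at h1
    omega
  have hdeg' : ∀ y, (univ.filter (fun x : Fin (Fintype.card V) => H'.Adj x y)).card ≤ Δ := by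
    intro y
    refine le_trans ?_ (hdeg (f.symm y))
    rw [Set.ncard_eq_toFinset_card']
    refine card_le_card_of_injOn f.symm ?_ ?_
    · intro x hx
      rw [mem_coe, mem_filter] at hx
      rw [mem_coe, Set.mem_toFinset, SimpleGraph.mem_neighborSet]
      exact ((hadj x y).1 hx.2).symm
    · intro x _ y _ hxy
      exact f.symm.injective hxy
  -- the chromatic number
  have hcolf : H.Colorable (Fintype.card V) := H.colorable_of_fintype
  have htop : H.chromaticNumber ≠ ⊤ :=
    SimpleGraph.chromaticNumber_ne_top_iff_exists.2 ⟨_, hcolf⟩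
  obtain ⟨k, hk⟩ := ENat.ne_top_iff_exists.1 htop
  have hcol : H.Colorable k := SimpleGraph.chromaticNumber_le_iff_colorable.1 (le_of_eq hk.symm)
  have hcol' : H'.Colorable k := by
    obtain ⟨C⟩ := hcol
    exact ⟨SimpleGraph.Coloring.mk (fun x => C (f.symm x))
      (fun {x y} hxy => C.valid ((hadj x y).1 hxy))⟩
  have hkΔ : k ≤ Δ + 1 := by
    have h1 := Pool.Agent.H35.BW.greedy H' Δ hdeg'
    have h2 : H.Colorable (Δ + 1) := by
      obtain ⟨C⟩ := h1
      refine ⟨SimpleGraph.Coloring.mk (fun x => C (f x)) (fun {x y} hxy => C.valid ?_)⟩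
      rw [hadj, Equiv.symm_apply_apply, Equiv.symm_apply_apply]
      exact hxy
    have h3 := h2.chromaticNumber_le
    rw [← hk] at h3
    exact_mod_cast h3
  -- the Ramsey property
  have hmem : (k + 8) * Fintype.card V ∈
      {N : ℕ | ∀ G : SimpleGraph (Fin N), H.IsContained G ∨ H.IsContained Gᶜ} := by
    intro G
    rcases hmain (Fintype.card V) hn (bandwidth H) hbw H' hbw' hdeg' k hkΔ hcol'
      (Fin ((k + 8) * Fintype.card V)) (Fintype.card_fin _) G with ⟨ψ, h1, h2⟩ | ⟨ψ, h1, h2⟩
    · left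
      refine ⟨⟨⟨fun v => ψ (f v), fun {u v} huv => h2 _ _ ?_⟩, h1.comp f.injective⟩⟩
      rw [hadj, Equiv.symm_apply_apply, Equiv.symm_apply_apply]
      exact huv
    · right
      refine ⟨⟨⟨fun v => ψ (f v), fun {u v} huv => h2 _ _ ?_⟩, h1.comp f.injective⟩⟩
      rw [hadj, Equiv.symm_apply_apply, Equiv.symm_apply_apply]
      exact huv
  have hle : ramsey H ≤ (k + 8) * Fintype.card V := Nat.sInf_le hmem
  rw [← hk]
  exact_mod_cast hle

end Pool.Agent.Results.MP_f1903f_co.AbsoluteConstant
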